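import Pool.Agent.H91.XRay

set_option autoImplicit false

open MeasureTheory in
theorem Pool.Agent.Results.MP_113557_an.Counter.result :
    ∃ (f : EuclideanSpace ℝ (Fin 2) → ℝ) (P : Set (EuclideanSpace ℝ (Fin 2))),
      Measurable f ∧ (∃ C, ∀ x, |f x| ≤ C) ∧ (∃ R, ∀ x, R < ‖x‖ → f x = 0) ∧
      ¬ (∀ᵐ x, f x = 0) ∧ P.Infinite ∧
      ∀ p ∈ P, ∀ u, ‖u‖ = 1 → IntegrableOn (fun t : ℝ => f (p + t • u)) (Set.Ioi 0) ∧
        ∫ t in Set.Ioi (0 : ℝ), f (p + t • u) = 0 :=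
  Pool.Agent.H91.XRay.main
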